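import Pool.Agent.R955.FD.Defs

/-!
Project FD (MP_0880e2_an), piece LOW: lower estimates, from the circle to the line.
-/

set_option autoImplicit false

namespace Pool.Agent.R569.FDLOW

open MeasureTheory Set Filter Topology
open scoped ENNReal FourierTransform
open Pool.Agent.R955.FD

universe u

theorem tendsto_ofReal_zero {c : ℕ → ℝ} (hc : Tendsto c atTop (𝓝 0)) :
    Tendsto (fun N => ENNReal.ofReal (c N)) atTop (𝓝 0) := by
  have := (ENNReal.continuous_ofReal.tendsto 0).comp hc
  rw [ENNReal.ofReal_zero] at this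
  exact this

theorem t_LOW (h1 : S_BRI.{u}) (h2 : S_POI.{u}) (h3 : S_UPL.{u}) (h4 : S_DWN.{u}) (h5 : S_TNC.{u})
    (h6 : S_LQ) (h7 : S_ENL.{u}) (h8 : S_DEC.{u}) : S_LOW.{u} := by
  intro X _ _ _ p q hp hq hT
  obtain ⟨L, hL, hT⟩ := hT
  have hpi : 0 < Real.pi / 2 := by positivity
  refine ⟨L * (Real.pi / 2), by positivity, ?_⟩
  intro J hJ f hf
  obtain ⟨A, L0, hg, hfE, hDR⟩ := h1 X f hf
  obtain ⟨q1, q2, q3, q4, q5⟩ := h6 q hq
  set g : ℝ → X := 𝓕 f with hgdef
  -- the upper estimate of the Riemann sums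
  obtain ⟨c, hc, hup⟩ : ∃ c : ℕ → ℝ, Tendsto c atTop (𝓝 0) ∧ ∀ N : ℕ, 1 ≤ N →
      ENNReal.ofReal ((N : ℝ) ^ (1 / p.toReal)) * nT p (TN g A N univ) ≤
        ENNReal.ofReal (Real.pi / 2) * (nR p f + ENNReal.ofReal (c N)) := by
    rcases eq_or_lt_of_le hp with hp1 | hp1
    · refine ⟨fun _ => 0, tendsto_const_nhds, ?_⟩
      intro N hN
      subst hp1
      have h9 := h2 X f A L0 hf hg N hN
      have e1 : (N : ℝ) ^ (1 / (1 : ℝ≥0∞).toReal) = N := by simp
      rw [e1]
      refine h9.trans ?_
      rw [ENNReal.ofReal_zero, add_zero]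
      have h10 : (1 : ℝ≥0∞) ≤ ENNReal.ofReal (Real.pi / 2) := by
        rw [← ENNReal.ofReal_one]
        apply ENNReal.ofReal_le_ofReal
        linarith [Real.pi_gt_three]
      calc nR 1 f = 1 * nR 1 f := (one_mul _).symm
        _ ≤ _ := by gcongr
    · obtain ⟨c, hc, h9⟩ := h3 X g A L0 p hg hp1
      refine ⟨c, hc, ?_⟩
      intro N hN
      have h10 := h9 N hN univ ordConnected_univ
      rwa [← hfE] at h10
  have hcont : ∀ i, Continuous (Ext g (J i)) := by
    obtain ⟨C, hC, h9, -⟩ := h8 X g A L0 hg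
    exact fun i => (h9 (J i) (hJ.1 i)).1
  have hDR' : (fun i => nR p (DR (J i) f)) = fun i => nR p (Ext g (J i)) := by
    funext i
    rw [hDR (J i) (hJ.1 i)]
  rw [hDR']
  refine q5 (fun R i => eLpNorm (Ext g (J i)) p (volume.restrict (Icc (-(R : ℝ)) R))) _ _ ?_ ?_ ?_
  · intro R R' i hR
    exact (h7 X (Ext g (J i)) p (hcont i)).1 R R' hR
  · intro i
    exact (h7 X (Ext g (J i)) p (hcont i)).2
  · intro S R
    obtain ⟨c', hc', hdwn⟩ := h4 X g A L0 p R hg hp
    -- the inequality for every large `N`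
    have hmain : ∀ N : ℕ, 1 ≤ N → 2 * R ≤ N →
        lq q (fun i => if i ∈ S then eLpNorm (Ext g (J i)) p (volume.restrict (Icc (-(R : ℝ)) R)) else 0) ≤
          ENNReal.ofReal L * (ENNReal.ofReal (Real.pi / 2) * (nR p f + ENNReal.ofReal (c N))) +
            S.card * ENNReal.ofReal (c' N) := by
      intro N hN hR
      obtain ⟨t1, t2, t3⟩ := h5 X g A N hN
      have e1 : lq q (fun i => if i ∈ S then
          eLpNorm (Ext g (J i)) p (volume.restrict (Icc (-(R : ℝ)) R)) else 0) ≤
          lq q (fun i => ENNReal.ofReal ((N : ℝ) ^ (1 / p.toReal)) * nT p (TN g A N (J i)) +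
            (if i ∈ S then ENNReal.ofReal (c' N) else 0)) := by
        apply q1
        intro i
        by_cases hi : i ∈ S
        · simp only [hi, if_true]
          exact hdwn N hN hR (J i) (hJ.1 i)
        · simp only [hi, if_false]
          exact zero_le
      have e2 : lq q (fun i => if i ∈ S then ENNReal.ofReal (c' N) else 0) ≤
          S.card * ENNReal.ofReal (c' N) := by
        apply q4
        · intro i hi
          simp [hi]
        · intro i
          by_cases hi : i ∈ S
          · simp [hi]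
          · simp [hi]
      have e3 : lq q (fun i => nT p (TN g A N (J i))) ≤
          ENNReal.ofReal L * nT p (TN g A N univ) := by
        have := hT (fun i => pre N (J i)) (t3 J hJ) (smp g A N)
        rw [t1] at this
        simpa only [t2] using this
      calc _ ≤ _ := e1
        _ ≤ _ := q2 _ _
        _ = ENNReal.ofReal ((N : ℝ) ^ (1 / p.toReal)) * lq q (fun i => nT p (TN g A N (J i))) +
            lq q (fun i => if i ∈ S then ENNReal.ofReal (c' N) else 0) := by rw [q3]
        _ ≤ ENNReal.ofReal ((N : ℝ) ^ (1 / p.toReal)) *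
              (ENNReal.ofReal L * nT p (TN g A N univ)) + S.card * ENNReal.ofReal (c' N) := by
            gcongr
        _ = ENNReal.ofReal L * (ENNReal.ofReal ((N : ℝ) ^ (1 / p.toReal)) *
              nT p (TN g A N univ)) + S.card * ENNReal.ofReal (c' N) := by ring
        _ ≤ _ := add_le_add_left (mul_le_mul_right (hup N hN) _) _
    have hlim : Tendsto (fun N : ℕ =>
        ENNReal.ofReal L * (ENNReal.ofReal (Real.pi / 2) * (nR p f + ENNReal.ofReal (c N))) +
            S.card * ENNReal.ofReal (c' N)) atTop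
        (𝓝 (ENNReal.ofReal L * (ENNReal.ofReal (Real.pi / 2) * (nR p f + 0)) + S.card * 0)) := by
      apply Tendsto.add
      · apply ENNReal.Tendsto.const_mul _ (Or.inr ENNReal.ofReal_ne_top)
        apply ENNReal.Tendsto.const_mul _ (Or.inr ENNReal.ofReal_ne_top)
        exact tendsto_const_nhds.add (tendsto_ofReal_zero hc)
      · exact ENNReal.Tendsto.const_mul (tendsto_ofReal_zero hc') (Or.inr (ENNReal.natCast_ne_top _))
    have hfin := ge_of_tendsto hlim (by
      filter_upwards [eventually_ge_atTop (max 1 (2 * R))] with N hN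
      exact hmain N (le_trans (le_max_left _ _) hN) (le_trans (le_max_right _ _) hN))
    refine hfin.trans (le_of_eq ?_)
    rw [add_zero, mul_zero, add_zero, ENNReal.ofReal_mul hL.le, mul_assoc]

end Pool.Agent.R569.FDLOW
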